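import Pool.Agent.H47.THN.Targets
import Pool.Agent.H27.L1.H14.GHY.GAL
import Pool.Agent.H27.L1.H37.GHY.CRD

/-!
Board thn (MP_52e316_nt), rows LQ1 and CR1: the mean square of the Dirichlet polynomials from the large
sieve, and the sum of the weights.
-/

set_option autoImplicit false

namespace Pool.Agent.H14.THN

open MeasureTheory Pool.Agent.H27.L1.H34.GM Pool.Agent.H27.L1.H34.GZ Pool.Agent.H27.L1.H34.GU
  Pool.Agent.H27.L1.H34.GA Pool.Agent.H27.L1.H68.GHY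
open Pool.Agent.H47.THN

/-- LQ1 -/
theorem lq1 (hG : T_GAL) : T_LQ1 := by
  intro m
  obtain ⟨C', hC', hg⟩ := hG
  refine ⟨C', hC', ?_⟩
  intro ε C K ι _ W lam N δ hδ hδ1 h y a hy ha
  have h0 := h y a hy ha
  have h1 : ∀ i, ∫⁻ t in Set.Icc (-δ⁻¹) δ⁻¹, ENNReal.ofReal (‖DP m (lam i) a y t‖ ^ 2) ≤
      ENNReal.ofReal (C' * δ⁻¹ ^ 2) *
        ∫⁻ x0 in Set.Ioi (0 : ℝ), ENNReal.ofReal (‖B1 m (lam i) a y δ x0‖ ^ 2 * x0⁻¹) := by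
    intro i
    exact hg δ hδ hδ1 ⌊y⌋₊ (tl m (lam i) a)
  calc ∑ i, W i * ∫⁻ t in Set.Icc (-δ⁻¹) δ⁻¹, ENNReal.ofReal (‖DP m (lam i) a y t‖ ^ 2)
      ≤ ∑ i, W i * (ENNReal.ofReal (C' * δ⁻¹ ^ 2) *
        ∫⁻ x0 in Set.Ioi (0 : ℝ), ENNReal.ofReal (‖B1 m (lam i) a y δ x0‖ ^ 2 * x0⁻¹)) :=
        Finset.sum_le_sum fun i _ => mul_le_mul' le_rfl (h1 i)
    _ = ENNReal.ofReal (C' * δ⁻¹ ^ 2) * ∑ i, W i *
        ∫⁻ x0 in Set.Ioi (0 : ℝ), ENNReal.ofReal (‖B1 m (lam i) a y δ x0‖ ^ 2 * x0⁻¹) := by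
        rw [Finset.mul_sum]
        refine Finset.sum_congr rfl fun i _ => ?_
        ring
    _ ≤ ENNReal.ofReal (C' * δ⁻¹ ^ 2) * ENNReal.ofReal (C * δ ^ 2 * δ⁻¹ ^ (m ^ 2) *
        (N : ℝ) ^ ((m : ℝ) + ε) *
        (1 + Real.log (y * N * δ⁻¹)) ^ K * y ^ m * (1 + δ ^ m * y / N) ^ m) := by
        gcongr
    _ = ENNReal.ofReal (C' * C * δ⁻¹ ^ (m ^ 2) * (N : ℝ) ^ ((m : ℝ) + ε) *
        (1 + Real.log (y * N * δ⁻¹)) ^ K * y ^ m * (1 + δ ^ m * y / N) ^ m) := by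
        rw [← ENNReal.ofReal_mul (by positivity)]
        congr 1
        have e2 : δ⁻¹ ^ 2 * δ ^ 2 = 1 := by
          rw [← mul_pow, inv_mul_cancel₀ hδ.ne', one_pow]
        calc _ = (δ⁻¹ ^ 2 * δ ^ 2) * (C' * C * δ⁻¹ ^ (m ^ 2) * (N : ℝ) ^ ((m : ℝ) + ε) *
            (1 + Real.log (y * N * δ⁻¹)) ^ K * y ^ m * (1 + δ ^ m * y / N) ^ m) := by ring
          _ = _ := by rw [e2, one_mul]

/-- LQ1 without hypotheses -/
theorem pf_LQ1 : T_LQ1 := lq1 Pool.Agent.H27.L1.H14.GHY.pf_GAL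

/-- the sum of the weights -/
theorem pf_CR1 : T_CR1 := by
  intro m ε hε C hC K
  obtain ⟨C1, hC1, hlog⟩ := Pool.Agent.H27.L1.H37.GHY.log_pow_le K (half_pos hε)
  refine ⟨C * C1 * 2 ^ m, by positivity, ?_⟩
  intro ι _ W lam N δ hN1 hδ hδ' hlam H
  have hN : (1 : ℝ) ≤ N := by exact_mod_cast hN1
  have hN0 : (0 : ℝ) < N := by linarith
  have hδi : 0 < δ⁻¹ := inv_pos.2 hδ
  have hδ2 : (2 : ℝ) ≤ δ⁻¹ := by
    rw [le_inv_comm₀ (by norm_num) hδ]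
    linarith
  let a : ℕ → ℂ := fun n => if n = 1 then 1 else 0
  have ha : Coe 1 a := by
    constructor
    · intro n
      show ‖(if n = 1 then (1 : ℂ) else 0)‖ ≤ 1
      split_ifs <;> simp
    · intro n hn
      have : n = 1 := by
        by_contra h
        exact hn (if_neg h)
      subst this
      norm_num
  have h1 := H 1 a le_rfl ha
  have hDP : ∀ i t, DP m (lam i) a 1 t = 1 := by
    intro i t
    unfold DP tl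
    rw [Nat.floor_one, Finset.Icc_self, Finset.sum_singleton, hlam i]
    simp [a]
  have h2 : ∀ i, ∫⁻ t in Set.Icc (-δ⁻¹) δ⁻¹, ENNReal.ofReal (‖DP m (lam i) a 1 t‖ ^ 2) =
      ENNReal.ofReal (2 * δ⁻¹) := by
    intro i
    simp only [hDP, norm_one, one_pow, ENNReal.ofReal_one]
    rw [setLIntegral_one, Real.volume_Icc]
    congr 1
    ring
  have h1' : (∑ i, W i) * ENNReal.ofReal (2 * δ⁻¹) ≤
      ENNReal.ofReal (C * δ⁻¹ ^ (m ^ 2) * (N : ℝ) ^ ((m : ℝ) + ε / 2) *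
        (1 + Real.log (1 * N * δ⁻¹)) ^ K * 1 ^ m * (1 + δ ^ m * 1 / N) ^ m) := by
    refine le_trans (le_of_eq ?_) h1
    rw [Finset.sum_mul]
    exact Finset.sum_congr rfl fun i _ => by rw [h2 i]
  have hz1 : 1 ≤ (N : ℝ) * δ⁻¹ := by nlinarith
  have hB : 0 ≤ C * δ⁻¹ ^ (m ^ 2) * (N : ℝ) ^ ((m : ℝ) + ε / 2) *
        (1 + Real.log (1 * N * δ⁻¹)) ^ K * 1 ^ m * (1 + δ ^ m * 1 / N) ^ m := by
    have h5 : 0 ≤ 1 + Real.log (1 * N * δ⁻¹) := by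
      have := Real.log_nonneg (show (1 : ℝ) ≤ 1 * N * δ⁻¹ by rw [one_mul]; exact hz1)
      linarith
    positivity
  have h4 : (∑ i, W i) * ENNReal.ofReal δ⁻¹ ≤ (∑ i, W i) * ENNReal.ofReal (2 * δ⁻¹) :=
    mul_le_mul' le_rfl (ENNReal.ofReal_le_ofReal (by linarith))
  refine h4.trans (h1'.trans (ENNReal.ofReal_le_ofReal ?_))
  have h5 : (1 + Real.log (1 * N * δ⁻¹)) ^ K ≤ C1 * ((N : ℝ) * δ⁻¹) ^ (ε / 2) := by
    rw [one_mul]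
    exact hlog _ hz1
  have h6 : (1 + δ ^ m * 1 / N) ^ m ≤ (2 : ℝ) ^ m := by
    refine pow_le_pow_left₀ (by positivity) ?_ m
    have h7 : δ ^ m ≤ 1 := pow_le_one₀ hδ.le (by linarith)
    have h8 : δ ^ m * 1 / N ≤ 1 := by
      rw [div_le_one hN0]
      linarith
    linarith
  have h7 : (N : ℝ) ^ ((m : ℝ) + ε / 2) ≤ (N : ℝ) ^ m * ((N : ℝ) * δ⁻¹) ^ (ε / 2) := by
    rw [Real.rpow_add hN0, Real.rpow_natCast]
    refine mul_le_mul_of_nonneg_left ?_ (by positivity)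
    refine Real.rpow_le_rpow hN0.le ?_ (half_pos hε).le
    nlinarith
  have hE : ((N : ℝ) * δ⁻¹) ^ (ε / 2) * ((N : ℝ) * δ⁻¹) ^ (ε / 2) = ((N : ℝ) * δ⁻¹) ^ ε := by
    rw [← Real.rpow_add (by linarith), add_halves]
  have h8 : 0 ≤ 1 + Real.log (1 * N * δ⁻¹) := by
    have := Real.log_nonneg (show (1 : ℝ) ≤ 1 * N * δ⁻¹ by rw [one_mul]; exact hz1)
    linarith
  calc C * δ⁻¹ ^ (m ^ 2) * (N : ℝ) ^ ((m : ℝ) + ε / 2) *
        (1 + Real.log (1 * N * δ⁻¹)) ^ K * 1 ^ m * (1 + δ ^ m * 1 / N) ^ m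
      ≤ C * δ⁻¹ ^ (m ^ 2) * ((N : ℝ) ^ m * ((N : ℝ) * δ⁻¹) ^ (ε / 2)) *
        (C1 * ((N : ℝ) * δ⁻¹) ^ (ε / 2)) * 1 ^ m * 2 ^ m := by
        gcongr
    _ = C * C1 * 2 ^ m * (((N : ℝ) * δ⁻¹) ^ (ε / 2) * ((N : ℝ) * δ⁻¹) ^ (ε / 2)) *
        (N : ℝ) ^ m * δ⁻¹ ^ (m ^ 2) := by
        rw [one_pow]
        ring
    _ = _ := by rw [hE]

end Pool.Agent.H14.THN
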